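import Pool.Agent.Work.MP_bd9a46_an.Main

/-!
# `X_p` is not an algebra for `1 < p < ∞`, `p ≠ 2`
-/

open Pool.Agent.Work.MP_bd9a46_an

namespace Pool.Agent.Results.MP_bd9a46_an.NotAlgebra

/-- For every `1 < p < ∞` with `p ≠ 2` the space `X_p` is not an algebra. -/
theorem result (p : ℝ) (hp1 : 1 < p) (hp2 : p ≠ 2) : ¬ IsAlg (ENNReal.ofReal p) := by
  obtain ⟨u, v, hu, hv, h⟩ := main
  intro hA
  exact h p hp1 hp2 (hA u v (hu p hp1).inX (hv.inX _))

end Pool.Agent.Results.MP_bd9a46_an.NotAlgebra
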